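import Pool.Agent.V1120.VG.Iso

/-! Counting the family. -/

namespace Pool.Agent.V1120.VG

open Filter

/-- the thresholds given by a free choice in the positions `1, …, m - 4` -/
def thr (M m : ℕ) (s : Fin (m - 4) → Fin M) (i : ℕ) : ℕ :=
  if h : 1 ≤ i ∧ i - 1 < m - 4 then s ⟨i - 1, h.2⟩ else if i = 0 then 0 else M - 1

lemma thr_good {M m : ℕ} (hM : 2 ≤ M) (hm : 5 ≤ m) (s : Fin (m - 4) → Fin M) :
    Good M m (thr M m s) where
  hM := hM
  hm := hm
  lt i := by
    unfold thr
    split_ifs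
    · exact (s _).2
    · omega
    · omega
  c0 := by
    unfold thr
    rw [dif_neg (by omega), if_pos rfl]
  c1 := by
    unfold thr
    rw [dif_neg (by omega), if_neg (by omega)]
  c2 := by
    unfold thr
    rw [dif_neg (by omega), if_neg (by omega)]
  c3 := by
    unfold thr
    rw [dif_neg (by omega), if_neg (by omega)]

lemma fam_vis {M m : ℕ} {c : ℕ → ℕ} (hc : Good M m c) : Fam M m c (visGraph (fv M m c)) :=
  fun i j hij => f_adj (by have := hc.hM; omega) hc.lt i j hij

lemma count_strict {M m : ℕ} (hM : 2 ≤ M) (hm : 5 ≤ m) :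
    M ^ (m - 4) ≤ numVisStrict (M + 2 * m + 1) := by
  set f : (Fin (m - 4) → Fin M) → Quotient (isoSetoid (M + 2 * m + 1)) :=
    fun s => Quotient.mk (isoSetoid (M + 2 * m + 1)) (visGraph (fv M m (thr M m s))) with hf
  have hinj : Function.Injective f := by
    intro s t hst
    obtain ⟨e⟩ : Nonempty (visGraph (fv M m (thr M m s)) ≃g visGraph (fv M m (thr M m t))) :=
      Quotient.exact hst
    funext i
    have h1 := c_eq (fam_vis (thr_good hM hm s)) (thr_good hM hm s) (fam_vis (thr_good hM hm t))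
      (thr_good hM hm t) e (i + 1) (by omega)
    unfold thr at h1
    rw [dif_pos ⟨by omega, by omega⟩, dif_pos ⟨by omega, by omega⟩] at h1
    exact Fin.ext h1
  have hcard : Set.ncard (Set.range f) = M ^ (m - 4) := by
    rw [← Set.image_univ, Set.ncard_image_of_injective _ hinj, Set.ncard_univ]
    simp
  rw [← hcard]
  unfold numVisStrict
  refine Set.ncard_le_ncard ?_ (Set.toFinite _)
  rintro q ⟨s, rfl⟩
  have hg := thr_good hM hm s
  exact ⟨fv M m (thr M m s), f_simple (by omega) (by omega) hg.lt,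
    f_straight (by omega) (by omega) hg.lt, rfl⟩

lemma strict_le (n : ℕ) : numVisStrict n ≤ numVis n := by
  unfold numVisStrict numVis
  refine Set.ncard_le_ncard ?_ (Set.toFinite _)
  rintro q ⟨v, h1, -, h3⟩
  exact ⟨v, h1, h3⟩

theorem strict_lower {ε : ℝ} (hε : 0 < ε) (hε1 : ε ≤ 1 / 2) :
    ∀ᶠ n : ℕ in atTop,
      (1 / 2 - ε) * (n * Real.logb 2 n) ≤ Real.logb 2 (numVisStrict n) := by
  set K : ℝ := Real.logb 2 (2 / ε) with hK
  have hKn : 0 ≤ K := Real.logb_nonneg (by norm_num) (by rw [le_div_iff₀ hε]; linarith)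
  have hlog : Tendsto (fun n : ℕ => Real.logb 2 n) atTop atTop :=
    (Real.tendsto_logb_atTop (by norm_num)).comp tendsto_natCast_atTop_atTop
  have hnat : Tendsto (fun n : ℕ => (n : ℝ)) atTop atTop := tendsto_natCast_atTop_atTop
  filter_upwards [hlog.eventually_ge_atTop (4 * K / ε), hnat.eventually_ge_atTop (60 / ε),
    hlog.eventually_ge_atTop K]
    with n h1 h2 h3
  have h2' : 60 ≤ ε * n := by rw [div_le_iff₀ hε] at h2; linarith
  have hn120 : (120 : ℝ) ≤ n := by nlinarith
  have hnpos : (0 : ℝ) < n := by linarith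
  set m : ℕ := ⌊(1 / 2 - ε / 2) * (n : ℝ)⌋₊ with hm
  have hmn : 0 ≤ (1 / 2 - ε / 2) * (n : ℝ) := mul_nonneg (by linarith) hnpos.le
  have m1 : (m : ℝ) ≤ (1 / 2 - ε / 2) * n := Nat.floor_le hmn
  have m2 : (1 / 2 - ε / 2) * n < m + 1 := Nat.lt_floor_add_one _
  have hm5 : 5 ≤ m := by
    have : (5 : ℝ) < m + 1 := by nlinarith
    have : (5 : ℕ) < m + 1 := by exact_mod_cast this
    omega
  have hle : 2 * m + 1 ≤ n := by
    have : (2 * m + 1 : ℝ) ≤ n := by nlinarith
    exact_mod_cast this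
  obtain ⟨M, hM⟩ : ∃ M, n = M + 2 * m + 1 := ⟨n - 2 * m - 1, by omega⟩
  have hMr : (M : ℝ) = n - 2 * m - 1 := by rw [hM]; push_cast; ring
  have hM1 : ε / 2 * n ≤ M := by rw [hMr]; nlinarith
  have hM2 : 2 ≤ M := by
    have : (2 : ℝ) ≤ M := by nlinarith
    exact_mod_cast this
  have hcount := count_strict hM2 hm5
  rw [← hM] at hcount
  have hcount' : ((M : ℝ) ^ (m - 4)) ≤ numVisStrict n := by exact_mod_cast hcount
  have hMpos : (0 : ℝ) < M := by have : (2 : ℝ) ≤ M := by exact_mod_cast hM2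
                                 linarith
  have hlg : Real.logb 2 ((M : ℝ) ^ (m - 4)) ≤ Real.logb 2 (numVisStrict n) :=
    Real.logb_le_logb_of_le (by norm_num) (by positivity) hcount'
  rw [Real.logb_pow] at hlg
  have hlM : Real.logb 2 n - K ≤ Real.logb 2 M := by
    have e1 : Real.logb 2 (ε / 2 * n) = Real.logb 2 n - K := by
      rw [hK, Real.logb_mul (by positivity) hnpos.ne', Real.logb_div (by norm_num) hε.ne',
        Real.logb_div hε.ne' (by norm_num)]
      ring
    rw [← e1]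
    exact Real.logb_le_logb_of_le (by norm_num) (by positivity) hM1
  have hcast : ((m - 4 : ℕ) : ℝ) = (m : ℝ) - 4 := by
    rw [Nat.cast_sub (by omega)]; norm_num
  rw [hcast] at hlg
  refine le_trans ?_ hlg
  set L : ℝ := Real.logb 2 n with hL
  have hLK : 0 ≤ L - K := by linarith
  have h1' : 4 * K ≤ ε * L := by rw [div_le_iff₀ hε] at h1; linarith
  have hm4 : (1 / 2 - ε / 2) * n - 5 ≤ (m : ℝ) - 4 := by linarith
  have hpos5 : 0 ≤ (1 / 2 - ε / 2) * (n : ℝ) - 5 := by nlinarith
  calc (1 / 2 - ε) * (n * L) ≤ ((1 / 2 - ε / 2) * n - 5) * (L - K) := by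
        have hL0 : 0 ≤ L := by linarith
        have q1 : 5 * L ≤ ε / 4 * n * L := mul_le_mul_of_nonneg_right (by linarith) hL0
        have q2 : K * n ≤ ε / 4 * L * n := mul_le_mul_of_nonneg_right (by linarith) hnpos.le
        have q3 : 0 ≤ K * (ε * n) := by positivity
        nlinarith
    _ ≤ ((m : ℝ) - 4) * Real.logb 2 M :=
        mul_le_mul hm4 hlM hLK (by linarith)

theorem main (ε : ℝ) (hε : 0 < ε) : ∀ᶠ n : ℕ in atTop,
    (1 / 2 - ε) * (n * Real.logb 2 n) ≤ Real.logb 2 (numVis n) ∧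
    (1 / 2 - ε) * (n * Real.logb 2 n) ≤ Real.logb 2 (numVisStrict n) := by
  have h1 := strict_lower (ε := min ε (1 / 2)) (lt_min hε (by norm_num)) (min_le_right _ _)
  filter_upwards [h1, eventually_ge_atTop 13] with n hn h13
  have hL : 0 ≤ (n : ℝ) * Real.logb 2 n := by
    refine mul_nonneg (Nat.cast_nonneg _) (Real.logb_nonneg (by norm_num) ?_)
    have : (13 : ℝ) ≤ n := by exact_mod_cast h13
    linarith
  have hs : (1 / 2 - ε) * (n * Real.logb 2 n) ≤ Real.logb 2 (numVisStrict n) := by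
    refine le_trans (mul_le_mul_of_nonneg_right ?_ hL) hn
    have := min_le_left ε (1 / 2)
    linarith
  refine ⟨hs.trans ?_, hs⟩
  have hpos : 0 < numVisStrict n := by
    obtain ⟨M, hM⟩ : ∃ M, n = M + 2 * 5 + 1 := ⟨n - 11, by omega⟩
    have := count_strict (M := M) (m := 5) (by omega) le_rfl
    rw [← hM] at this
    exact lt_of_lt_of_le (Nat.pow_pos (by omega)) this
  exact Real.logb_le_logb_of_le (by norm_num) (by exact_mod_cast hpos)
    (by exact_mod_cast strict_le n)

end Pool.Agent.V1120.VG
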