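import Mathlib

/-! Simple polygons in the plane, the closed region bounded by a simple polygon, its visibility
graph, and the number of isomorphism classes of visibility graphs. The plane is `ℝ × ℝ`. -/

namespace Pool.Agent.V1120.VG

/-- the `i`-th edge of the closed polygonal curve with vertices `v 0, …, v (n - 1)`: the segment
joining `v i` to the cyclically next vertex -/
def edge {n : ℕ} (v : Fin n → ℝ × ℝ) (i : Fin n) : Set (ℝ × ℝ) :=
  segment ℝ (v i) (v (finRotate n i))

/-- the closed polygonal curve with vertices `v 0, …, v (n - 1)` -/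
def curve {n : ℕ} (v : Fin n → ℝ × ℝ) : Set (ℝ × ℝ) := ⋃ i, edge v i

/-- the closed polygonal curve with the `n ≥ 3` vertices `v 0, …, v (n - 1)` has no
self-intersections: the vertices are distinct, and two different edges meet at most in common
endpoints -/
structure IsSimplePolygon {n : ℕ} (v : Fin n → ℝ × ℝ) : Prop where
  three_le : 3 ≤ n
  injective : Function.Injective v
  simple : ∀ i j, i ≠ j →
    edge v i ∩ edge v j ⊆ {v i, v (finRotate n i)} ∩ {v j, v (finRotate n j)}

/-- no straight angles: three consecutive vertices never lie on a line -/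
def NoStraightAngle {n : ℕ} (v : Fin n → ℝ × ℝ) : Prop :=
  ∀ i, ¬ Collinear ℝ {v i, v (finRotate n i), v (finRotate n (finRotate n i))}

/-- the closed region bounded by the curve: the points of the curve, and the points off the curve
whose connected component in the complement of the curve is bounded -/
def region {n : ℕ} (v : Fin n → ℝ × ℝ) : Set (ℝ × ℝ) :=
  {x | x ∈ curve v ∨ Bornology.IsBounded (connectedComponentIn (curve v)ᶜ x)}

/-- the visibility graph: two vertices are adjacent when the closed segment between them is
contained in the closed region bounded by the curve -/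
def visGraph {n : ℕ} (v : Fin n → ℝ × ℝ) : SimpleGraph (Fin n) where
  Adj i j := i ≠ j ∧ segment ℝ (v i) (v j) ⊆ region v
  symm := ⟨fun i j h => ⟨h.1.symm, by rw [segment_symm]; exact h.2⟩⟩
  loopless := ⟨fun i h => h.1 rfl⟩

/-- isomorphism of graphs with vertex set `{0, …, n - 1}` -/
def isoSetoid (n : ℕ) : Setoid (SimpleGraph (Fin n)) where
  r G H := Nonempty (G ≃g H)
  iseqv := ⟨fun _ => ⟨SimpleGraph.Iso.refl⟩, fun ⟨e⟩ => ⟨e.symm⟩, fun ⟨e⟩ ⟨f⟩ => ⟨e.trans f⟩⟩

/-- the number of isomorphism classes of visibility graphs of simple polygons with `n` vertices -/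
noncomputable def numVis (n : ℕ) : ℕ :=
  Set.ncard {q : Quotient (isoSetoid n) |
    ∃ v : Fin n → ℝ × ℝ, IsSimplePolygon v ∧ q = Quotient.mk (isoSetoid n) (visGraph v)}

/-- the number of isomorphism classes of visibility graphs of simple polygons with `n` vertices and
no straight angles -/
noncomputable def numVisStrict (n : ℕ) : ℕ :=
  Set.ncard {q : Quotient (isoSetoid n) |
    ∃ v : Fin n → ℝ × ℝ, IsSimplePolygon v ∧ NoStraightAngle v ∧
      q = Quotient.mk (isoSetoid n) (visGraph v)}

end Pool.Agent.V1120.VG
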