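import Pool.Agent.V1120.VG.Terrain

/-! The family of terrains. The vertices `0, …, M - 1` are far targets on a parabola, the vertices
`M, M + 2, …, M + 2m` are peaks on the parabola, and the valleys `M + 2i + 1` see exactly the
targets `0, …, c i` and their two neighbours. -/

namespace Pool.Agent.V1120.VG

open Set

/-- the valleys -/
def Vl (M k : ℕ) : Prop := M ≤ k ∧ (k - M) % 2 = 1

instance (M k : ℕ) : Decidable (Vl M k) := by unfold Vl; infer_instance

/-- abscissas -/
noncomputable def fX (M m : ℕ) (k : ℕ) : ℝ := if k < M then (k : ℝ) else (k : ℝ) + 2 * m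

/-- depth below the parabola -/
noncomputable def fD (M m : ℕ) (c : ℕ → ℕ) (k : ℕ) : ℝ :=
  if Vl M k then fX M m k - c ((k - M) / 2) - 1 / 2 else 0

/-- ordinates -/
noncomputable def fY (M m : ℕ) (c : ℕ → ℕ) (k : ℕ) : ℝ := fX M m k ^ 2 - fD M m c k

variable {M m : ℕ} {c : ℕ → ℕ}

lemma fX_lt {k : ℕ} (h : k < M) : fX M m k = k := by simp [fX, h]

lemma fX_ge {k : ℕ} (h : M ≤ k) : fX M m k = k + 2 * m := by simp [fX, not_lt.2 h]

lemma fX_mono : StrictMono (fX M m) := by
  refine strictMono_nat_of_lt_succ fun k => ?_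
  unfold fX
  have hm : (0 : ℝ) ≤ m := Nat.cast_nonneg m
  split_ifs with h1 h2 h2
  · push_cast; linarith
  · push_cast; linarith
  · omega
  · push_cast; linarith

lemma fD_not {k : ℕ} (h : ¬ Vl M k) : fD M m c k = 0 := by simp [fD, h]

lemma fD_val {k : ℕ} (h : Vl M k) :
    fD M m c k = (k : ℝ) + 2 * m - c ((k - M) / 2) - 1 / 2 := by
  simp [fD, h, fX_ge h.1]

lemma fD_nonneg (hc : ∀ i, c i < M) (k : ℕ) : 0 ≤ fD M m c k := by
  by_cases h : Vl M k
  · rw [fD_val h]
    have h1 : (c ((k - M) / 2) : ℝ) + 1 ≤ M := by exact_mod_cast hc _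
    have h2 : (M : ℝ) ≤ k := by exact_mod_cast h.1
    have hm : (0 : ℝ) ≤ m := Nat.cast_nonneg m
    linarith
  · rw [fD_not h]

/-- the point `k` is below the line through `i` and `j` -/
lemma fle_iff {i j : ℕ} (hij : i < j) (k : ℕ) :
    fY M m c k ≤ ln (fX M m) (fY M m c) i j (fX M m k) ↔
      (fX M m j - fX M m k) * fD M m c i + (fX M m k - fX M m i) * fD M m c j ≤
        (fX M m j - fX M m i) * (fX M m k - fX M m i) * (fX M m j - fX M m k) +
          (fX M m j - fX M m i) * fD M m c k := by
  have hpos : 0 < fX M m j - fX M m i := sub_pos.2 (fX_mono hij)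
  have e : ln (fX M m) (fY M m c) i j (fX M m k) - fY M m c k =
      ((fX M m j - fX M m i) * (fX M m k - fX M m i) * (fX M m j - fX M m k) +
          (fX M m j - fX M m i) * fD M m c k -
      ((fX M m j - fX M m k) * fD M m c i + (fX M m k - fX M m i) * fD M m c j)) /
        (fX M m j - fX M m i) := by
    unfold ln fY
    have hne := hpos.ne'
    field_simp
    ring
  rw [← sub_nonneg, e, le_div_iff₀ hpos, zero_mul, sub_nonneg]

lemma flt_iff {i j : ℕ} (hij : i < j) (k : ℕ) :
    fY M m c k < ln (fX M m) (fY M m c) i j (fX M m k) ↔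
      (fX M m j - fX M m k) * fD M m c i + (fX M m k - fX M m i) * fD M m c j <
        (fX M m j - fX M m i) * (fX M m k - fX M m i) * (fX M m j - fX M m k) +
          (fX M m j - fX M m i) * fD M m c k := by
  have hpos : 0 < fX M m j - fX M m i := sub_pos.2 (fX_mono hij)
  have e : ln (fX M m) (fY M m c) i j (fX M m k) - fY M m c k =
      ((fX M m j - fX M m i) * (fX M m k - fX M m i) * (fX M m j - fX M m k) +
          (fX M m j - fX M m i) * fD M m c k -
      ((fX M m j - fX M m k) * fD M m c i + (fX M m k - fX M m i) * fD M m c j)) /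
        (fX M m j - fX M m i) := by
    unfold ln fY
    have hne := hpos.ne'
    field_simp
    ring
  rw [← sub_pos, e, div_pos_iff_of_pos_right hpos, sub_pos]

lemma fX_succ_ge {k : ℕ} (h : M ≤ k) : fX M m (k + 1) - fX M m k = 1 := by
  rw [fX_ge h, fX_ge (by omega)]; push_cast; ring

lemma fX_gap {i j : ℕ} (h : i < j) : 1 ≤ fX M m j - fX M m i := by
  have hm : (0 : ℝ) ≤ m := Nat.cast_nonneg m
  have hij : (i : ℝ) + 1 ≤ j := by exact_mod_cast h
  unfold fX
  split_ifs with h1 h2 h2
  · linarith
  · exfalso; omega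
  · linarith
  · linarith

/-- the family of polygons -/
noncomputable def fv (M m : ℕ) (c : ℕ → ℕ) : Fin (M + 2 * m + 1) → ℝ × ℝ :=
  tv (M + 2 * m) (fX M m) (fY M m c)

lemma f_top (hM : 1 ≤ M) (hc : ∀ i, c i < M) (k : ℕ) (h0 : 0 < k) (hk : k < M + 2 * m) :
    fY M m c k < ln (fX M m) (fY M m c) 0 (M + 2 * m) (fX M m k) := by
  rw [flt_iff (by omega), fD_not (k := 0) (fun h => by have := h.1; omega),
    fD_not (k := M + 2 * m) (fun h => by have := h.2; omega)]
  have h1 : 0 < fX M m k - fX M m 0 := sub_pos.2 (fX_mono h0)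
  have h2 : 0 < fX M m (M + 2 * m) - fX M m k := sub_pos.2 (fX_mono hk)
  have h3 : 0 < fX M m (M + 2 * m) - fX M m 0 := by linarith
  have h4 := fD_nonneg (m := m) hc k
  have h5 : 0 < (fX M m (M + 2 * m) - fX M m 0) * (fX M m k - fX M m 0) *
      (fX M m (M + 2 * m) - fX M m k) := by positivity
  have h6 : 0 ≤ (fX M m (M + 2 * m) - fX M m 0) * fD M m c k := by positivity
  linarith

lemma f_top' (hM : 1 ≤ M) (hc : ∀ i, c i < M) (k : ℕ) (hk : k ≤ M + 2 * m) :
    fY M m c k ≤ ln (fX M m) (fY M m c) 0 (M + 2 * m) (fX M m k) := by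
  rcases Nat.eq_zero_or_pos k with h | h
  · rw [h, ln_left]
  · rcases Nat.lt_or_ge k (M + 2 * m) with h' | h'
    · exact (f_top hM hc k h h').le
    · have : k = M + 2 * m := le_antisymm hk h'
      subst this
      rw [ln_right (fX_mono (by omega))]

/-- the combinatorial adjacency of `i < j` -/
def CA (M : ℕ) (c : ℕ → ℕ) (i j : ℕ) : Prop :=
  (¬ Vl M i ∧ ¬ Vl M j) ∨ j = i + 1 ∨ (Vl M j ∧ i ≤ c ((j - M) / 2))

theorem f_adj (hM : 1 ≤ M) (hc : ∀ i, c i < M) (i j : Fin (M + 2 * m + 1))
    (hij : (i : ℕ) < j) : (visGraph (fv M m c)).Adj i j ↔ CA M c i j := by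
  unfold fv
  rw [adj_iff fX_mono (by omega) (f_top' hM hc) i j hij]
  have hjN : (j : ℕ) ≤ M + 2 * m := by omega
  have hm : (0 : ℝ) ≤ m := Nat.cast_nonneg m
  unfold CA
  constructor
  · intro h
    by_cases hj1 : (j : ℕ) = i + 1
    · exact Or.inr (Or.inl hj1)
    by_cases hi : Vl M i
    · -- a valley on the left sees only its right neighbour
      exfalso
      have h1 := h (i + 1) (by omega) (by omega)
      rw [fle_iff hij] at h1
      have hk : ¬ Vl M ((i : ℕ) + 1) := fun h' => by
        have := hi.2; have := hi.1; have := h'.2; omega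
      rw [fD_not hk, fX_succ_ge hi.1] at h1
      have hjk : 1 ≤ fX M m j - fX M m (i + 1) := fX_gap (by omega)
      have hDi : fX M m j - fX M m i < fD M m c i := by
        rw [fD_val hi, fX_ge hi.1, fX_ge (by have := hi.1; omega)]
        have h2 : (c (((i : ℕ) - M) / 2) : ℝ) + 1 ≤ M := by exact_mod_cast hc _
        have h3 : (M : ℝ) + 1 ≤ (i : ℕ) := by
          have := hi.1; have := hi.2
          have h4 : M + 1 ≤ (i : ℕ) := by omega
          exact_mod_cast h4
        have h5 : ((j : ℕ) : ℝ) ≤ M + 2 * m := by exact_mod_cast hjN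
        linarith
      have hDj := fD_nonneg (m := m) hc j
      nlinarith
    · by_cases hj : Vl M j
      · refine Or.inr (Or.inr ⟨hj, ?_⟩)
        by_contra hlt
        push Not at hlt
        have h1 := h (j - 1) (by omega) (by omega)
        rw [fle_iff hij] at h1
        have hjM : M + 1 ≤ (j : ℕ) := by have := hj.1; have := hj.2; omega
        have hk : ¬ Vl M ((j : ℕ) - 1) := fun h' => by
          have := hj.2; have := h'.2; omega
        have hj1' : fX M m j - fX M m (j - 1) = 1 := by
          have := fX_succ_ge (M := M) (m := m) (k := (j : ℕ) - 1) (by omega)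
          rwa [show (j : ℕ) - 1 + 1 = j by omega] at this
        rw [fD_not hk, fD_not hi, hj1'] at h1
        have hki : 1 ≤ fX M m (j - 1) - fX M m i := fX_gap (by omega)
        have hDj : fX M m j - fX M m i < fD M m c j := by
          rw [fD_val hj, fX_ge hj.1]
          have h2 : (c (((j : ℕ) - M) / 2) : ℝ) + 1 ≤ (i : ℕ) := by exact_mod_cast hlt
          have h3 : ((i : ℕ) : ℝ) ≤ fX M m i := by
            unfold fX; split_ifs
            · exact le_rfl
            · linarith
          linarith
        nlinarith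
      · exact Or.inl ⟨hi, hj⟩
  · rintro (⟨hi, hj⟩ | hj1 | ⟨hj, hic⟩) k hik hkj
    · rw [fle_iff hij, fD_not hi, fD_not hj]
      have h1 : 0 < fX M m k - fX M m i := sub_pos.2 (fX_mono hik)
      have h2 : 0 < fX M m j - fX M m k := sub_pos.2 (fX_mono hkj)
      have h3 : 0 < fX M m j - fX M m i := by linarith
      have h4 := fD_nonneg (m := m) hc k
      have h5 : 0 < (fX M m j - fX M m i) * (fX M m k - fX M m i) *
        (fX M m j - fX M m k) := by positivity
      have h6 : 0 ≤ (fX M m j - fX M m i) * fD M m c k := by positivity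
      linarith
    · omega
    · have hiM : (i : ℕ) < M := lt_of_le_of_lt hic (hc _)
      have hi : ¬ Vl M i := fun h' => by have := h'.1; omega
      rw [fle_iff hij, fD_not hi]
      have h1 : 0 < fX M m k - fX M m i := sub_pos.2 (fX_mono hik)
      have h2 : 1 ≤ fX M m j - fX M m k := fX_gap hkj
      have h3 : 0 < fX M m j - fX M m i := by linarith
      have h4 := fD_nonneg (m := m) hc k
      have h6 : 0 ≤ (fX M m j - fX M m i) * fD M m c k := by positivity
      have hDj : fD M m c j ≤ fX M m j - fX M m i := by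
        rw [fD_val hj, fX_ge hj.1, fX_lt hiM]
        have h7 : ((i : ℕ) : ℝ) ≤ c (((j : ℕ) - M) / 2) := by exact_mod_cast hic
        linarith
      have h8 : (fX M m k - fX M m i) * fD M m c j ≤
          (fX M m k - fX M m i) * (fX M m j - fX M m i) := by
        exact mul_le_mul_of_nonneg_left hDj h1.le
      have h9 : (fX M m j - fX M m i) * (fX M m k - fX M m i) * 1 ≤
          (fX M m j - fX M m i) * (fX M m k - fX M m i) * (fX M m j - fX M m k) :=
        mul_le_mul_of_nonneg_left h2 (by positivity)
      linarith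

theorem f_simple (hM : 1 ≤ M) (hm : 1 ≤ m) (hc : ∀ i, c i < M) : IsSimplePolygon (fv M m c) :=
  isSimple fX_mono (by omega) (f_top hM hc)

theorem f_straight (hM : 1 ≤ M) (hm : 1 ≤ m) (hc : ∀ i, c i < M) :
    NoStraightAngle (fv M m c) := by
  refine noStraight fX_mono (by omega) (f_top hM hc) fun k hk he => ?_
  have h1 := (fle_iff (c := c) (M := M) (m := m) (show k < k + 2 by omega) (k + 1)).1 he.le
  have h2 : ¬ _ := fun h => (lt_irrefl _) (he ▸ (flt_iff (c := c) (M := M) (m := m)
    (show k < k + 2 by omega) (k + 1)).2 h)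
  rw [not_lt] at h2
  have heq := le_antisymm h1 h2
  clear h1 h2 he
  have g1 : 0 < fX M m (k + 1) - fX M m k := sub_pos.2 (fX_mono (by omega))
  have g2 : 0 < fX M m (k + 2) - fX M m (k + 1) := sub_pos.2 (fX_mono (by omega))
  have g3 : 0 < fX M m (k + 2) - fX M m k := by linarith
  have hm' : (1 : ℝ) ≤ m := by exact_mod_cast hm
  by_cases hv : Vl M (k + 1)
  · have hk0 : ¬ Vl M k := fun h' => by
      have := hv.2; have := h'.1; have := h'.2; omega
    have hk2 : ¬ Vl M (k + 2) := fun h' => by
      have := hv.2; have := hv.1; have := h'.2; omega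
    rw [fD_not hk0, fD_not hk2] at heq
    have h4 := fD_nonneg (m := m) hc (k + 1)
    have h5 : 0 < (fX M m (k + 2) - fX M m k) * (fX M m (k + 1) - fX M m k) *
      (fX M m (k + 2) - fX M m (k + 1)) := by positivity
    have h6 : 0 ≤ (fX M m (k + 2) - fX M m k) * fD M m c (k + 1) := by positivity
    linarith
  · rw [fD_not hv] at heq
    by_cases hk2 : Vl M (k + 2)
    · by_cases hk0 : Vl M k
      · -- both valleys
        have e1 : fX M m (k + 1) - fX M m k = 1 := fX_succ_ge hk0.1
        have e2 : fX M m (k + 2) - fX M m (k + 1) = 1 := fX_succ_ge (by have := hk0.1; omega)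
        have e3 : fX M m (k + 2) - fX M m k = 2 := by linarith
        rw [e1, e2, e3] at heq
        have h4 := fD_nonneg (m := m) hc (k + 2)
        have h5 : 2 < fD M m c k := by
          rw [fD_val hk0]
          have h2 : (c ((k - M) / 2) : ℝ) + 1 ≤ M := by exact_mod_cast hc _
          have h3 : (M : ℝ) + 1 ≤ k := by
            have := hk0.1; have := hk0.2
            have h4 : M + 1 ≤ k := by omega
            exact_mod_cast h4
          linarith
        linarith
      · -- `k + 1 = M`
        have hkM : k + 1 = M := by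
          have := hk2.1; have := hk2.2
          by_contra hne
          have : M ≤ k := by
            by_contra hlt
            have : k + 2 = M := by omega
            omega
          exact hk0 ⟨this, by omega⟩
        have e2 : fX M m (k + 2) - fX M m (k + 1) = 1 := fX_succ_ge (by omega)
        rw [fD_not hk0, e2] at heq
        have h7 : fD M m c (k + 2) = fX M m (k + 2) - fX M m k := by
          have : (fX M m (k + 1) - fX M m k) * (fD M m c (k + 2) - (fX M m (k + 2) - fX M m k)) =
            0 := by linarith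
          rcases mul_eq_zero.1 this with h | h
          · linarith
          · linarith
        rw [fD_val hk2, fX_ge hk2.1, fX_lt (by omega : k < M)] at h7
        have h8 : (2 * k : ℝ) = 2 * c ((k + 2 - M) / 2) + 1 := by
          push_cast at h7; linarith
        have h9 : 2 * k = 2 * c ((k + 2 - M) / 2) + 1 := by exact_mod_cast h8
        omega
    · have hk0 : ¬ Vl M k := fun h' => by
        apply hk2
        exact ⟨by have := h'.1; omega, by have := h'.1; have := h'.2; omega⟩
      rw [fD_not hk0, fD_not hk2] at heq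
      have h5 : 0 < (fX M m (k + 2) - fX M m k) * (fX M m (k + 1) - fX M m k) *
        (fX M m (k + 2) - fX M m (k + 1)) := by positivity
      linarith

end Pool.Agent.V1120.VG
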