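import Pool.Agent.V1120.VG.Family

/-! Isomorphic members of the family are equal. -/

namespace Pool.Agent.V1120.VG

variable {M m : ℕ} {c c' : ℕ → ℕ}

/-- the graph has the adjacencies of the family -/
def Fam (M m : ℕ) (c : ℕ → ℕ) (G : SimpleGraph (Fin (M + 2 * m + 1))) : Prop :=
  ∀ i j : Fin (M + 2 * m + 1), (i : ℕ) < j → (G.Adj i j ↔ CA M c i j)

/-- the constraints on the thresholds -/
structure Good (M m : ℕ) (c : ℕ → ℕ) : Prop where
  hM : 2 ≤ M
  hm : 5 ≤ m
  lt : ∀ i, c i < M
  c0 : c 0 = 0
  c1 : c (m - 1) = M - 1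
  c2 : c (m - 2) = M - 1
  c3 : c (m - 3) = M - 1

lemma adj_val {G : SimpleGraph (Fin (M + 2 * m + 1))} (hG : Fam M m c G) (hc : ∀ i, c i < M)
    {g x : Fin (M + 2 * m + 1)} (hg : Vl M g) :
    G.Adj g x ↔ (x : ℕ) + 1 = g ∨ (x : ℕ) = g + 1 ∨ (x : ℕ) ≤ c (((g : ℕ) - M) / 2) := by
  have h1 := hc (((g : ℕ) - M) / 2)
  have h2 := hc (((x : ℕ) - M) / 2)
  have hgM := hg.1
  rcases lt_trichotomy (x : ℕ) g with h | h | h
  · rw [G.adj_comm, hG x g h]
    unfold CA
    constructor
    · rintro (⟨-, h'⟩ | h' | ⟨-, h'⟩)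
      · exact absurd hg h'
      · exact Or.inl h'.symm
      · exact Or.inr (Or.inr h')
    · rintro (h' | h' | h')
      · exact Or.inr (Or.inl h'.symm)
      · omega
      · exact Or.inr (Or.inr ⟨hg, h'⟩)
  · have : x = g := Fin.ext h
    subst this
    constructor
    · intro h'; exact absurd h' (G.irrefl)
    · intro h'; omega
  · rw [hG g x h]
    unfold CA
    constructor
    · rintro (⟨h', -⟩ | h' | ⟨-, h'⟩)
      · exact absurd hg h'
      · exact Or.inr (Or.inl h')
      · omega
    · rintro (h' | h' | h')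
      · omega
      · exact Or.inr (Or.inl h')
      · omega

lemma adj_non {G : SimpleGraph (Fin (M + 2 * m + 1))} (hG : Fam M m c G)
    {a b : Fin (M + 2 * m + 1)} (ha : ¬ Vl M a) (hb : ¬ Vl M b) (hab : a ≠ b) : G.Adj a b := by
  have hne : (a : ℕ) ≠ b := fun h => hab (Fin.ext h)
  rcases lt_or_gt_of_ne hne with h | h
  · exact (hG a b h).2 (Or.inl ⟨ha, hb⟩)
  · exact ((hG b a h).2 (Or.inl ⟨hb, ha⟩)).symm

/-- all neighbours of the vertex are pairwise adjacent -/
def Simp {V : Type} (G : SimpleGraph V) (v : V) : Prop :=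
  ∀ x y, G.Adj v x → G.Adj v y → x ≠ y → G.Adj x y

lemma simp_iff {G : SimpleGraph (Fin (M + 2 * m + 1))} (hG : Fam M m c G) (hc : Good M m c)
    (v : Fin (M + 2 * m + 1)) : Simp G v ↔ Vl M v := by
  have hM := hc.hM
  have hm := hc.hm
  constructor
  · intro hs
    by_contra hv
    rcases Nat.lt_or_ge (v : ℕ) M with h | h
    · -- a target
      have hgV : Vl M (M + 2 * m - 1) := ⟨by omega, by omega⟩
      have hbV : ¬ Vl M M := fun h' => by have := h'.2; omega
      have e1 : G.Adj v ⟨M + 2 * m - 1, by omega⟩ := by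
        rw [G.adj_comm, adj_val hG hc.lt hgV]
        refine Or.inr (Or.inr ?_)
        simp only
        rw [show (M + 2 * m - 1 - M) / 2 = m - 1 by omega, hc.c1]
        omega
      have e2 : G.Adj v ⟨M, by omega⟩ := adj_non hG hv hbV (fun h' => by
        rw [h'] at h; exact lt_irrefl _ h)
      have e3 := hs _ _ e1 e2 (fun h' => by have := congrArg Fin.val h'; simp only at this; omega)
      rw [adj_val hG hc.lt hgV] at e3
      have := hc.lt ((M + 2 * m - 1 - M) / 2)
      simp only at e3
      omega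
    · -- a peak
      have hv2 : ((v : ℕ) - M) % 2 = 0 := by
        by_contra h'
        exact hv ⟨h, by omega⟩
      have hvN : (v : ℕ) ≤ M + 2 * m := by omega
      rcases Nat.lt_or_ge (v : ℕ) (M + 4) with h4 | h4
      · have hgV : Vl M ((v : ℕ) + 1) := ⟨by omega, by omega⟩
        have hbV : ¬ Vl M (M + 2 * m) := fun h' => by have := h'.2; omega
        have e1 : G.Adj v ⟨(v : ℕ) + 1, by omega⟩ := by
          rw [G.adj_comm, adj_val hG hc.lt hgV]
          exact Or.inl rfl
        have e2 : G.Adj v ⟨M + 2 * m, by omega⟩ := adj_non hG hv hbV (fun h' => by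
          have := congrArg Fin.val h'; simp only at this; omega)
        have e3 := hs _ _ e1 e2 (fun h' => by have := congrArg Fin.val h'; simp only at this; omega)
        rw [adj_val hG hc.lt hgV] at e3
        have := hc.lt (((v : ℕ) + 1 - M) / 2)
        simp only at e3
        omega
      · have hgV : Vl M ((v : ℕ) - 1) := ⟨by omega, by omega⟩
        have hbV : ¬ Vl M M := fun h' => by have := h'.2; omega
        have e1 : G.Adj v ⟨(v : ℕ) - 1, by omega⟩ := by
          rw [G.adj_comm, adj_val hG hc.lt hgV]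
          refine Or.inr (Or.inl ?_)
          simp only; omega
        have e2 : G.Adj v ⟨M, by omega⟩ := adj_non hG hv hbV (fun h' => by
          have := congrArg Fin.val h'; simp only at this; omega)
        have e3 := hs _ _ e1 e2 (fun h' => by have := congrArg Fin.val h'; simp only at this; omega)
        rw [adj_val hG hc.lt hgV] at e3
        have := hc.lt (((v : ℕ) - 1 - M) / 2)
        simp only at e3
        omega
  · intro hv x y hx hy hxy
    rw [adj_val hG hc.lt hv] at hx hy
    have h1 := hc.lt (((v : ℕ) - M) / 2)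
    have hvM := hv.1
    have hv2 := hv.2
    refine adj_non hG (fun h' => ?_) (fun h' => ?_) hxy
    · have := h'.1; have := h'.2; omega
    · have := h'.1; have := h'.2; omega

lemma simp_map {V W : Type} {G : SimpleGraph V} {G' : SimpleGraph W} (e : G ≃g G') {v : V}
    (h : Simp G v) : Simp G' (e v) := by
  intro x y hx hy hxy
  have hx' : G.Adj v (e.symm x) := by
    rw [← e.map_adj_iff]; simpa using hx
  have hy' : G.Adj v (e.symm y) := by
    rw [← e.map_adj_iff]; simpa using hy
  have := h _ _ hx' hy' (fun h' => hxy (e.symm.injective h'))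
  rw [← e.map_adj_iff] at this
  simpa using this

lemma e_val {G G' : SimpleGraph (Fin (M + 2 * m + 1))} (hG : Fam M m c G) (hc : Good M m c)
    (hG' : Fam M m c' G') (hc' : Good M m c') (e : G ≃g G') (v : Fin (M + 2 * m + 1)) :
    Vl M (e v) ↔ Vl M v := by
  rw [← simp_iff hG' hc', ← simp_iff hG hc]
  constructor
  · intro h
    have := simp_map e.symm h
    simpa using this
  · exact simp_map e

/-- a target is sent to a target -/
lemma e_tgt {G G' : SimpleGraph (Fin (M + 2 * m + 1))} (hG : Fam M m c G) (hc : Good M m c)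
    (hG' : Fam M m c' G') (hc' : Good M m c') (e : G ≃g G') (v : Fin (M + 2 * m + 1))
    (hv : (v : ℕ) < M) : ((e v : Fin (M + 2 * m + 1)) : ℕ) < M := by
  have hM := hc.hM
  have hm := hc.hm
  by_contra hlt
  push Not at hlt
  have hnv : ¬ Vl M v := fun h' => by have := h'.1; omega
  have hnev : ¬ Vl M (e v) := fun h' => hnv ((e_val hG hc hG' hc' e v).1 h')
  have key : ∀ g : Fin (M + 2 * m + 1), Vl M g → G.Adj g v →
      ((e g : Fin (M + 2 * m + 1)) : ℕ) + 1 = e v ∨
        ((e g : Fin (M + 2 * m + 1)) : ℕ) = e v + 1 := by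
    intro g hg hgv
    have h1 : G'.Adj (e g) (e v) := e.map_adj_iff.2 hgv
    have h2 : Vl M (e g) := (e_val hG hc hG' hc' e g).2 hg
    rw [adj_val hG' hc'.lt h2] at h1
    have := hc'.lt ((((e g : Fin (M + 2 * m + 1)) : ℕ) - M) / 2)
    omega
  have V1 : Vl M (M + 2 * m - 1) := ⟨by omega, by omega⟩
  have V2 : Vl M (M + 2 * m - 3) := ⟨by omega, by omega⟩
  have V3 : Vl M (M + 2 * m - 5) := ⟨by omega, by omega⟩
  have a1 : G.Adj ⟨M + 2 * m - 1, by omega⟩ v := by
    rw [adj_val hG hc.lt V1]
    refine Or.inr (Or.inr ?_)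
    simp only
    rw [show (M + 2 * m - 1 - M) / 2 = m - 1 by omega, hc.c1]
    omega
  have a2 : G.Adj ⟨M + 2 * m - 3, by omega⟩ v := by
    rw [adj_val hG hc.lt V2]
    refine Or.inr (Or.inr ?_)
    simp only
    rw [show (M + 2 * m - 3 - M) / 2 = m - 2 by omega, hc.c2]
    omega
  have a3 : G.Adj ⟨M + 2 * m - 5, by omega⟩ v := by
    rw [adj_val hG hc.lt V3]
    refine Or.inr (Or.inr ?_)
    simp only
    rw [show (M + 2 * m - 5 - M) / 2 = m - 3 by omega, hc.c3]
    omega
  have k1 := key _ V1 a1
  have k2 := key _ V2 a2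
  have k3 := key _ V3 a3
  have n12 : ((e ⟨M + 2 * m - 1, by omega⟩ : Fin (M + 2 * m + 1)) : ℕ) ≠
      e ⟨M + 2 * m - 3, by omega⟩ := fun h' => by
    have := congrArg Fin.val (e.injective (Fin.ext h')); simp only at this; omega
  have n13 : ((e ⟨M + 2 * m - 1, by omega⟩ : Fin (M + 2 * m + 1)) : ℕ) ≠
      e ⟨M + 2 * m - 5, by omega⟩ := fun h' => by
    have := congrArg Fin.val (e.injective (Fin.ext h')); simp only at this; omega
  have n23 : ((e ⟨M + 2 * m - 3, by omega⟩ : Fin (M + 2 * m + 1)) : ℕ) ≠
      e ⟨M + 2 * m - 5, by omega⟩ := fun h' => by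
    have := congrArg Fin.val (e.injective (Fin.ext h')); simp only at this; omega
  omega

/-- a peak is sent to a peak -/
lemma e_peak {G G' : SimpleGraph (Fin (M + 2 * m + 1))} (hG : Fam M m c G) (hc : Good M m c)
    (hG' : Fam M m c' G') (hc' : Good M m c') (e : G ≃g G') (v : Fin (M + 2 * m + 1))
    (hv : M ≤ (v : ℕ)) : M ≤ ((e v : Fin (M + 2 * m + 1)) : ℕ) := by
  by_contra hlt
  push Not at hlt
  have := e_tgt hG' hc' hG hc e.symm (e v) hlt
  rw [RelIso.symm_apply_apply] at this
  omega

/-- the first peak is fixed -/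
lemma e_first {G G' : SimpleGraph (Fin (M + 2 * m + 1))} (hG : Fam M m c G) (hc : Good M m c)
    (hG' : Fam M m c' G') (hc' : Good M m c') (e : G ≃g G') :
    ((e ⟨M, by omega⟩ : Fin (M + 2 * m + 1)) : ℕ) = M := by
  have hM := hc.hM
  have hm := hc.hm
  set b : Fin (M + 2 * m + 1) := e ⟨M, by omega⟩ with hb
  have hbM : M ≤ (b : ℕ) := e_peak hG hc hG' hc' e _ le_rfl
  have hV0 : ¬ Vl M M := fun h' => by have := h'.2; omega
  have hbV : ¬ Vl M b := fun h' => hV0 ((e_val hG hc hG' hc' e _).1 h')
  have hb2 : ((b : ℕ) - M) % 2 = 0 := by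
    by_contra h'
    exact hbV ⟨hbM, by omega⟩
  have hbN : (b : ℕ) ≤ M + 2 * m := by omega
  -- a valley adjacent to `b` comes from the valley `M + 1`
  have key : ∀ g : Fin (M + 2 * m + 1), Vl M g → G'.Adj g b →
      ((e.symm g : Fin (M + 2 * m + 1)) : ℕ) = M + 1 := by
    intro g hg hgb
    have h1 : G.Adj (e.symm g) ⟨M, by omega⟩ := by
      rw [← e.map_adj_iff]; simpa using hgb
    have h2 : Vl M (e.symm g : Fin (M + 2 * m + 1)) := by
      have := (e_val hG hc hG' hc' e (e.symm g)).1
      rw [RelIso.apply_symm_apply] at this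
      exact this hg
    rw [adj_val hG hc.lt h2] at h1
    have h3 := hc.lt ((((e.symm g : Fin (M + 2 * m + 1)) : ℕ) - M) / 2)
    have h4 := h2.1
    simp only at h1
    omega
  rcases Nat.lt_or_ge M (b : ℕ) with h | h
  · exfalso
    have V1 : Vl M ((b : ℕ) - 1) := ⟨by omega, by omega⟩
    have a1 : G'.Adj ⟨(b : ℕ) - 1, by omega⟩ b := by
      rw [adj_val hG' hc'.lt V1]
      refine Or.inr (Or.inl ?_)
      simp only; omega
    have k1 := key _ V1 a1
    rcases Nat.lt_or_ge (b : ℕ) (M + 2 * m) with h' | h'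
    · have V2 : Vl M ((b : ℕ) + 1) := ⟨by omega, by omega⟩
      have a2 : G'.Adj ⟨(b : ℕ) + 1, by omega⟩ b := by
        rw [adj_val hG' hc'.lt V2]
        exact Or.inl rfl
      have k2 := key _ V2 a2
      have := congrArg Fin.val (e.symm.injective (Fin.ext (k1.trans k2.symm)))
      simp only at this
      omega
    · -- `b` is the last peak
      have hbe : (b : ℕ) = M + 2 * m := le_antisymm hbN h'
      have hg : e.symm ⟨(b : ℕ) - 1, by omega⟩ = (⟨M + 1, by omega⟩ : Fin (M + 2 * m + 1)) :=
        Fin.ext k1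
      have key2 : ∀ t : Fin (M + 2 * m + 1), (t : ℕ) < M →
          ((e.symm t : Fin (M + 2 * m + 1)) : ℕ) = 0 := by
        intro t ht
        have a : G'.Adj ⟨(b : ℕ) - 1, by omega⟩ t := by
          rw [adj_val hG' hc'.lt V1]
          refine Or.inr (Or.inr ?_)
          simp only
          rw [show ((b : ℕ) - 1 - M) / 2 = m - 1 by omega, hc'.c1]
          omega
        have a' : G.Adj (⟨M + 1, by omega⟩ : Fin (M + 2 * m + 1)) (e.symm t) := by
          rw [← hg]; exact e.symm.map_adj_iff.2 a
        have V3 : Vl M (M + 1) := ⟨by omega, by omega⟩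
        rw [adj_val hG hc.lt V3] at a'
        have h5 := e_tgt hG' hc' hG hc e.symm t ht
        simp only at a'
        rw [show (M + 1 - M) / 2 = 0 by omega, hc.c0] at a'
        omega
      have t0 := key2 ⟨0, by omega⟩ (by simp only; omega)
      have t1 := key2 ⟨1, by omega⟩ (by simp only; omega)
      have := congrArg Fin.val (e.symm.injective (Fin.ext (t0.trans t1.symm)))
      simp only at this
      omega
  · omega

/-- all vertices after the targets are fixed -/
lemma e_fix {G G' : SimpleGraph (Fin (M + 2 * m + 1))} (hG : Fam M m c G) (hc : Good M m c)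
    (hG' : Fam M m c' G') (hc' : Good M m c') (e : G ≃g G') :
    ∀ k, (hk : k ≤ 2 * m) → ((e ⟨M + k, by omega⟩ : Fin (M + 2 * m + 1)) : ℕ) = M + k := by
  intro k
  induction k using Nat.strong_induction_on with
  | _ k ih =>
    intro hk
    rcases Nat.eq_zero_or_pos k with h0 | h0
    · subst h0; exact e_first hG hc hG' hc' e
    · have ih1 := ih (k - 1) (by omega) (by omega)
      set u : Fin (M + 2 * m + 1) := e ⟨M + k, by omega⟩ with hu
      have huM : M ≤ (u : ℕ) := e_peak hG hc hG' hc' e _ (by simp)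
      have hVu : Vl M u ↔ Vl M (M + k) := e_val hG hc hG' hc' e ⟨M + k, by omega⟩
      -- adjacent to `M + (k - 1)`
      have hstep : (u : ℕ) + 1 = M + (k - 1) ∨ (u : ℕ) = M + (k - 1) + 1 := by
        have hw : e ⟨M + (k - 1), by omega⟩ =
            (⟨M + (k - 1), by omega⟩ : Fin (M + 2 * m + 1)) := Fin.ext ih1
        by_cases hV : Vl M (M + k)
        · have hV' : ¬ Vl M (M + (k - 1)) := fun h' => by
            have := h'.2; have := hV.2; omega
          have a : G.Adj ⟨M + k, by omega⟩ ⟨M + (k - 1), by omega⟩ := by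
            rw [adj_val hG hc.lt hV]
            refine Or.inl ?_
            simp only; omega
          have a' := e.map_adj_iff.2 a
          rw [hw] at a'
          rw [adj_val hG' hc'.lt (hVu.2 hV)] at a'
          have := hc'.lt (((u : ℕ) - M) / 2)
          simp only at a'
          omega
        · have hV' : Vl M (M + (k - 1)) := by
            refine ⟨by omega, ?_⟩
            by_contra h'
            exact hV ⟨by omega, by omega⟩
          have a : G.Adj ⟨M + (k - 1), by omega⟩ ⟨M + k, by omega⟩ := by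
            rw [adj_val hG hc.lt hV']
            refine Or.inr (Or.inl ?_)
            simp only; omega
          have a' := e.map_adj_iff.2 a
          rw [hw, adj_val hG' hc'.lt hV'] at a'
          have := hc'.lt ((M + (k - 1) - M) / 2)
          simp only at a'
          omega
      rcases hstep with h | h
      · exfalso
        have ih2 := ih (k - 2) (by omega) (by omega)
        have : ((e ⟨M + (k - 2), by omega⟩ : Fin (M + 2 * m + 1)) : ℕ) = u := by
          rw [ih2]; omega
        have := congrArg Fin.val (e.injective (Fin.ext this))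
        simp only at this
        omega
      · omega

lemma c_le {G G' : SimpleGraph (Fin (M + 2 * m + 1))} (hG : Fam M m c G) (hc : Good M m c)
    (hG' : Fam M m c' G') (hc' : Good M m c') (e : G ≃g G') (i : ℕ) (hi : i < m) :
    c i ≤ c' i := by
  have hfix := e_fix hG hc hG' hc' e (2 * i + 1) (by omega)
  have hw : e ⟨M + (2 * i + 1), by omega⟩ =
      (⟨M + (2 * i + 1), by omega⟩ : Fin (M + 2 * m + 1)) := Fin.ext hfix
  have V : Vl M (M + (2 * i + 1)) := ⟨by omega, by omega⟩
  have hci := hc.lt i
  have hcard := Finset.card_le_card_of_injOn (s := Finset.range (c i + 1))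
    (t := Finset.range (c' i + 1))
    (fun k => if h : k < M + 2 * m + 1 then
      ((e ⟨k, h⟩ : Fin (M + 2 * m + 1)) : ℕ) else 0) ?_ ?_
  · simpa using hcard
  · intro k hk
    have hk' : k < c i + 1 := by simpa using hk
    have hlt : k < M + 2 * m + 1 := by omega
    simp only [hlt, dif_pos]
    have a : G.Adj ⟨M + (2 * i + 1), by omega⟩ ⟨k, hlt⟩ := by
      rw [adj_val hG hc.lt V]
      refine Or.inr (Or.inr ?_)
      simp only
      rw [show (M + (2 * i + 1) - M) / 2 = i by omega]
      omega
    have a' := e.map_adj_iff.2 a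
    rw [hw, adj_val hG' hc'.lt V] at a'
    have h5 := e_tgt hG hc hG' hc' e ⟨k, hlt⟩ (by simp only; omega)
    simp only at a'
    rw [show (M + (2 * i + 1) - M) / 2 = i by omega] at a'
    simp only [Finset.coe_range, Set.mem_Iio]
    omega
  · intro k hk l hl hkl
    have hk' : k < c i + 1 := by simpa using hk
    have hl' : l < c i + 1 := by simpa using hl
    have h1 : k < M + 2 * m + 1 := by omega
    have h2 : l < M + 2 * m + 1 := by omega
    simp only [h1, h2, dif_pos] at hkl
    have := congrArg Fin.val (e.injective (Fin.ext hkl))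
    simpa using this

theorem c_eq {G G' : SimpleGraph (Fin (M + 2 * m + 1))} (hG : Fam M m c G) (hc : Good M m c)
    (hG' : Fam M m c' G') (hc' : Good M m c') (e : G ≃g G') (i : ℕ) (hi : i < m) :
    c i = c' i :=
  le_antisymm (c_le hG hc hG' hc' e i hi) (c_le hG' hc' hG hc e.symm i hi)

end Pool.Agent.V1120.VG
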