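import Pool.Agent.V1120.VG.Defs

/-! Terrains: polygons whose vertices have increasing abscissas and lie below the edge joining the
first vertex to the last one. -/

namespace Pool.Agent.V1120.VG

open Set

/-- clamped affine parameter -/
noncomputable def cl (a b x : ℝ) : ℝ := max 0 (min 1 ((x - a) / (b - a)))

lemma cl_nonneg (a b x : ℝ) : 0 ≤ cl a b x := le_max_left _ _

lemma cl_le_one (a b x : ℝ) : cl a b x ≤ 1 := max_le zero_le_one (min_le_left _ _)

lemma cl_of_le {a b x : ℝ} (hab : a < b) (h : x ≤ a) : cl a b x = 0 := by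
  unfold cl
  have : (x - a) / (b - a) ≤ 0 := div_nonpos_of_nonpos_of_nonneg (by linarith) (by linarith)
  exact max_eq_left ((min_le_right _ _).trans this)

lemma cl_of_ge {a b x : ℝ} (hab : a < b) (h : b ≤ x) : cl a b x = 1 := by
  unfold cl
  have : 1 ≤ (x - a) / (b - a) := by
    rw [le_div_iff₀ (by linarith)]; linarith
  rw [min_eq_left this]; exact max_eq_right zero_le_one

lemma cl_of_mem {a b x : ℝ} (hab : a < b) (h1 : a ≤ x) (h2 : x ≤ b) :
    cl a b x = (x - a) / (b - a) := by
  unfold cl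
  have h3 : (x - a) / (b - a) ≤ 1 := by
    rw [div_le_one (by linarith)]; linarith
  have h4 : 0 ≤ (x - a) / (b - a) := div_nonneg (by linarith) (by linarith)
  rw [min_eq_right h3, max_eq_right h4]

lemma cl_cont (a b : ℝ) : Continuous (cl a b) := by
  unfold cl; fun_prop

/-- the piecewise linear function through the points `(X k, Y k)`, `k ≤ N` -/
noncomputable def pl (N : ℕ) (X Y : ℕ → ℝ) (x : ℝ) : ℝ :=
  Y 0 + ∑ k ∈ Finset.range N, (Y (k + 1) - Y k) * cl (X k) (X (k + 1)) x

variable {N : ℕ} {X Y : ℕ → ℝ}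

lemma pl_cont : Continuous (pl N X Y) := by
  unfold pl
  refine continuous_const.add (continuous_finsetSum _ fun k _ => continuous_const.mul (cl_cont _ _))

lemma sum_full (hX : StrictMono X) {j : ℕ} {x : ℝ} (h : X j ≤ x) :
    ∑ k ∈ Finset.range j, (Y (k + 1) - Y k) * cl (X k) (X (k + 1)) x = Y j - Y 0 := by
  rw [← Finset.sum_range_sub]
  refine Finset.sum_congr rfl fun k hk => ?_
  rw [cl_of_ge (hX (Nat.lt_succ_self k)), mul_one]
  exact (hX.monotone (Nat.succ_le_of_lt (Finset.mem_range.1 hk))).trans h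

lemma pl_on (hX : StrictMono X) {j : ℕ} (hj : j < N) {x : ℝ} (h1 : X j ≤ x) (h2 : x ≤ X (j + 1)) :
    pl N X Y x = Y j + (Y (j + 1) - Y j) * ((x - X j) / (X (j + 1) - X j)) := by
  unfold pl
  rw [← Finset.sum_subset (Finset.range_subset_range.2 (Nat.succ_le_of_lt hj)), Finset.sum_range_succ,
    sum_full hX h1, cl_of_mem (hX (Nat.lt_succ_self j)) h1 h2]
  · ring
  · intro k _ hk
    rw [cl_of_le (hX (Nat.lt_succ_self k)), mul_zero]
    refine h2.trans (hX.monotone ?_)
    simpa using hk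

lemma pl_at (hX : StrictMono X) {j : ℕ} (hj : j ≤ N) : pl N X Y (X j) = Y j := by
  rcases Nat.lt_or_ge j N with h | h
  · rw [pl_on hX h le_rfl (hX (Nat.lt_succ_self j)).le]; simp
  · have : j = N := le_antisymm hj h
    subst this
    unfold pl
    rw [sum_full hX le_rfl]; ring

/-- every abscissa between the first and the last vertex lies over some edge -/
lemma exists_slab {i j : ℕ} (hij : i < j) {x : ℝ} (h1 : X i ≤ x)
    (h2 : x ≤ X j) : ∃ k, i ≤ k ∧ k < j ∧ X k ≤ x ∧ x ≤ X (k + 1) := by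
  induction j, hij using Nat.le_induction with
  | base => exact ⟨i, le_rfl, Nat.lt_succ_self i, h1, h2⟩
  | succ j hj ih =>
    rcases le_total x (X j) with h | h
    · obtain ⟨k, a, b, c, d⟩ := ih h
      exact ⟨k, a, by omega, c, d⟩
    · exact ⟨j, by omega, by omega, h, h2⟩

/-- the line through the points `i` and `j` -/
noncomputable def ln (X Y : ℕ → ℝ) (i j : ℕ) (x : ℝ) : ℝ :=
  Y i + (Y j - Y i) * ((x - X i) / (X j - X i))

lemma ln_cont (i j : ℕ) : Continuous (ln X Y i j) := by
  unfold ln; fun_prop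

lemma ln_left (i j : ℕ) : ln X Y i j (X i) = Y i := by simp [ln]

lemma ln_right {i j : ℕ} (h : X i < X j) : ln X Y i j (X j) = Y j := by
  unfold ln
  rw [div_self (by linarith [h])]; ring

/-- the points of the segment -/
lemma seg_iff {i j : ℕ} (h : X i < X j) (p : ℝ × ℝ) :
    p ∈ segment ℝ ((X i, Y i) : ℝ × ℝ) (X j, Y j) ↔
      X i ≤ p.1 ∧ p.1 ≤ X j ∧ p.2 = ln X Y i j p.1 := by
  have hpos : 0 < X j - X i := by linarith
  constructor
  · rintro ⟨a, b, ha, hb, hab, rfl⟩
    have ha' : a = 1 - b := by linarith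
    subst ha'
    simp only [Prod.smul_mk, smul_eq_mul, Prod.mk_add_mk]
    refine ⟨by nlinarith, by nlinarith, ?_⟩
    unfold ln
    have : ((1 - b) * X i + b * X j - X i) / (X j - X i) = b := by
      field_simp; ring
    rw [this]; ring
  · rintro ⟨h1, h2, h3⟩
    refine ⟨1 - (p.1 - X i) / (X j - X i), (p.1 - X i) / (X j - X i), ?_, ?_, by ring, ?_⟩
    · rw [sub_nonneg, div_le_one hpos]; linarith
    · exact div_nonneg (by linarith) hpos.le
    · ext
      · simp only [Prod.smul_mk, smul_eq_mul, Prod.mk_add_mk]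
        field_simp; ring
      · simp only [Prod.smul_mk, smul_eq_mul, Prod.mk_add_mk]
        rw [h3]; unfold ln; ring

lemma pl_eq_ln (hX : StrictMono X) {j : ℕ} (hj : j < N) {x : ℝ} (h1 : X j ≤ x)
    (h2 : x ≤ X (j + 1)) : pl N X Y x = ln X Y j (j + 1) x := pl_on hX hj h1 h2

/-- affine functions and interpolation -/
lemma ln_interp (i j : ℕ) (a b t : ℝ) :
    ln X Y i j ((1 - t) * a + t * b) = (1 - t) * ln X Y i j a + t * ln X Y i j b := by
  unfold ln; ring

lemma pl_le_ln (hX : StrictMono X) {i j : ℕ} (hij : i < j) (hj : j ≤ N)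
    (h : ∀ k, i ≤ k → k ≤ j → Y k ≤ ln X Y i j (X k)) {x : ℝ} (h1 : X i ≤ x) (h2 : x ≤ X j) :
    pl N X Y x ≤ ln X Y i j x := by
  obtain ⟨k, a, b, c, d⟩ := exists_slab hij h1 h2
  have hk : X k < X (k + 1) := hX (Nat.lt_succ_self k)
  rw [pl_on hX (by omega) c d]
  set t := (x - X k) / (X (k + 1) - X k) with ht
  have t0 : 0 ≤ t := div_nonneg (by linarith) (by linarith)
  have t1 : t ≤ 1 := by rw [ht, div_le_one (by linarith)]; linarith
  have hx : x = (1 - t) * X k + t * X (k + 1) := by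
    have h5 : t * (X (k + 1) - X k) = x - X k := div_mul_cancel₀ _ (sub_pos.2 hk).ne'
    linear_combination -h5
  rw [hx, ln_interp]
  have e1 := h k (by omega) (by omega)
  have e2 := h (k + 1) (by omega) (by omega)
  nlinarith

/-- the vertices of the terrain polygon -/
def tv (N : ℕ) (X Y : ℕ → ℝ) : Fin (N + 1) → ℝ × ℝ := fun i => (X i, Y i)

lemma rot_val (i : Fin (N + 1)) (h : (i : ℕ) < N) :
    ((finRotate (N + 1) i : Fin (N + 1)) : ℕ) = i + 1 := by
  have := finRotate_of_lt h
  rw [show i = ⟨(i : ℕ), h.trans_le N.le_succ⟩ from rfl, this]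

lemma tv_rot (i : Fin (N + 1)) (h : (i : ℕ) < N) :
    tv N X Y (finRotate (N + 1) i) = (X (i + 1), Y (i + 1)) := by
  unfold tv; rw [rot_val i h]

lemma tv_rot_last (i : Fin (N + 1)) (h : ¬ (i : ℕ) < N) :
    tv N X Y (finRotate (N + 1) i) = (X 0, Y 0) := by
  have : i = Fin.last N := Fin.ext (by simp; omega)
  subst this
  rw [finRotate_last]; rfl

lemma mem_edge (hX : StrictMono X) (i : Fin (N + 1)) (h : (i : ℕ) < N) (p : ℝ × ℝ) :
    p ∈ edge (tv N X Y) i ↔ X i ≤ p.1 ∧ p.1 ≤ X (i + 1) ∧ p.2 = ln X Y i (i + 1) p.1 := by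
  unfold edge
  rw [tv_rot i h]
  exact seg_iff (hX (Nat.lt_succ_self _)) p

lemma mem_edge_last (hX : StrictMono X) (hN : 0 < N) (i : Fin (N + 1)) (h : ¬ (i : ℕ) < N)
    (p : ℝ × ℝ) :
    p ∈ edge (tv N X Y) i ↔ X 0 ≤ p.1 ∧ p.1 ≤ X N ∧ p.2 = ln X Y 0 N p.1 := by
  unfold edge
  rw [tv_rot_last i h, segment_symm]
  have : (i : ℕ) = N := by omega
  have e : tv N X Y i = (X N, Y N) := by unfold tv; rw [this]
  rw [e]
  exact seg_iff (hX hN) p

lemma mem_curve (hX : StrictMono X) (hN : 0 < N) (p : ℝ × ℝ) :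
    p ∈ curve (tv N X Y) ↔
      X 0 ≤ p.1 ∧ p.1 ≤ X N ∧ (p.2 = pl N X Y p.1 ∨ p.2 = ln X Y 0 N p.1) := by
  unfold curve
  rw [mem_iUnion]
  constructor
  · rintro ⟨i, hi⟩
    by_cases h : (i : ℕ) < N
    · rw [mem_edge hX i h] at hi
      obtain ⟨h1, h2, h3⟩ := hi
      refine ⟨(hX.monotone (Nat.zero_le _)).trans h1, h2.trans (hX.monotone (by omega)), Or.inl ?_⟩
      rw [h3, pl_eq_ln hX h h1 h2]
    · rw [mem_edge_last hX hN i h] at hi
      exact ⟨hi.1, hi.2.1, Or.inr hi.2.2⟩
  · rintro ⟨h1, h2, h3 | h3⟩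
    · obtain ⟨k, a, b, c, d⟩ := exists_slab hN h1 h2
      refine ⟨⟨k, by omega⟩, ?_⟩
      rw [mem_edge hX _ b]
      exact ⟨c, d, by rw [h3, pl_eq_ln hX b c d]⟩
    · exact ⟨Fin.last N, by rw [mem_edge_last hX hN _ (by simp)]; exact ⟨h1, h2, h3⟩⟩

lemma mem_region (hX : StrictMono X) (hN : 0 < N) (p : ℝ × ℝ) (h1 : X 0 ≤ p.1) (h2 : p.1 ≤ X N)
    (h3 : pl N X Y p.1 ≤ p.2) (h4 : p.2 ≤ ln X Y 0 N p.1) : p ∈ region (tv N X Y) := by
  by_cases hp : p ∈ curve (tv N X Y)
  · exact Or.inl hp
  refine Or.inr ?_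
  set C : Set (ℝ × ℝ) := {q | X 0 ≤ q.1 ∧ q.1 ≤ X N ∧ pl N X Y q.1 ≤ q.2 ∧ q.2 ≤ ln X Y 0 N q.1}
    with hC
  set U : Set (ℝ × ℝ) := {q | X 0 < q.1 ∧ q.1 < X N ∧ pl N X Y q.1 < q.2 ∧ q.2 < ln X Y 0 N q.1}
    with hU
  have hCc : IsClosed C := by
    refine (isClosed_le continuous_const continuous_fst).inter
      ((isClosed_le continuous_fst continuous_const).inter
      ((isClosed_le (pl_cont.comp continuous_fst) continuous_snd).inter
      (isClosed_le continuous_snd ((ln_cont 0 N).comp continuous_fst))))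
  have hUo : IsOpen U := by
    refine (isOpen_lt continuous_const continuous_fst).inter
      ((isOpen_lt continuous_fst continuous_const).inter
      ((isOpen_lt (pl_cont.comp continuous_fst) continuous_snd).inter
      (isOpen_lt continuous_snd ((ln_cont 0 N).comp continuous_fst))))
  have hCU : C ⊆ U ∪ curve (tv N X Y) := by
    rintro q ⟨a, b, c, d⟩
    by_cases hq : q ∈ curve (tv N X Y)
    · exact Or.inr hq
    refine Or.inl ?_
    rw [mem_curve hX hN] at hq
    have c' : pl N X Y q.1 < q.2 := lt_of_le_of_ne c fun e => hq ⟨a, b, Or.inl e.symm⟩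
    have d' : q.2 < ln X Y 0 N q.1 := lt_of_le_of_ne d fun e => hq ⟨a, b, Or.inr e⟩
    refine ⟨lt_of_le_of_ne a fun e => ?_, lt_of_le_of_ne b fun e => ?_, c', d'⟩
    · rw [← e, pl_at hX (Nat.zero_le N)] at c'
      rw [← e, ln_left] at d'
      linarith
    · rw [e, pl_at hX le_rfl] at c'
      rw [e, ln_right (hX hN)] at d'
      linarith
  have hUC : U ⊆ C := fun q hq => ⟨hq.1.le, hq.2.1.le, hq.2.2.1.le, hq.2.2.2.le⟩
  have hpU : p ∈ U := (hCU ⟨h1, h2, h3, h4⟩).resolve_right hp
  have hKs : connectedComponentIn (curve (tv N X Y))ᶜ p ⊆ U := by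
    refine isPreconnected_connectedComponentIn.subset_left_of_subset_union hUo hCc.isOpen_compl
      (Set.disjoint_left.2 fun q hq hq' => hq' (hUC hq)) ?_ ?_
    · intro q hq
      have hq1 : q ∉ curve (tv N X Y) := connectedComponentIn_subset _ _ hq
      by_cases hqC : q ∈ C
      · exact Or.inl ((hCU hqC).resolve_right hq1)
      · exact Or.inr hqC
    · exact ⟨p, mem_connectedComponentIn hp, hpU⟩
  -- boundedness
  have hb1 : BddBelow (pl N X Y '' Icc (X 0) (X N)) :=
    isCompact_Icc.bddBelow_image pl_cont.continuousOn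
  have hb2 : BddAbove (ln X Y 0 N '' Icc (X 0) (X N)) :=
    isCompact_Icc.bddAbove_image (ln_cont 0 N).continuousOn
  obtain ⟨lo, hlo⟩ := hb1
  obtain ⟨hi, hhi⟩ := hb2
  have hUb : U ⊆ Icc (X 0) (X N) ×ˢ Icc lo hi := by
    rintro q ⟨a, b, c, d⟩
    refine ⟨⟨a.le, b.le⟩, ⟨?_, ?_⟩⟩
    · exact (hlo ⟨q.1, ⟨a.le, b.le⟩, rfl⟩).trans c.le
    · exact d.le.trans (hhi ⟨q.1, ⟨a.le, b.le⟩, rfl⟩)
  exact ((Metric.isBounded_Icc _ _).prod (Metric.isBounded_Icc _ _)).subset (hKs.trans hUb)

lemma not_mem_region (hX : StrictMono X) (hN : 0 < N) (p : ℝ × ℝ)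
    (h3 : p.2 < pl N X Y p.1) (h4 : p.2 < ln X Y 0 N p.1) : p ∉ region (tv N X Y) := by
  set R : Set (ℝ × ℝ) := (fun t : ℝ => (p.1, t)) '' Iic p.2 with hR
  have hRc : R ⊆ (curve (tv N X Y))ᶜ := by
    rintro q ⟨t, ht, rfl⟩ hq
    rw [mem_curve hX hN] at hq
    have ht' : t ≤ p.2 := ht
    obtain ⟨-, -, hq | hq⟩ := hq
    · simp only at hq; linarith
    · simp only at hq; linarith
  have hRp : IsPreconnected R :=
    isPreconnected_Iic.image _ (by fun_prop)
  have hpR : p ∈ R := ⟨p.2, self_mem_Iic, rfl⟩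
  have hsub : R ⊆ connectedComponentIn (curve (tv N X Y))ᶜ p :=
    hRp.subset_connectedComponentIn hpR hRc
  rintro (h | h)
  · exact hRc hpR h
  · have hb : Bornology.IsBounded (Iic p.2) := by
      have := (h.subset hsub).image_snd
      refine this.subset ?_
      intro t ht
      exact ⟨(p.1, t), ⟨t, ht, rfl⟩, rfl⟩
    have := hb.bddBelow
    exact not_bddBelow_Iic _ this

theorem adj_iff (hX : StrictMono X) (hN : 0 < N) (hT : ∀ k, k ≤ N → Y k ≤ ln X Y 0 N (X k))
    (i j : Fin (N + 1)) (hij : (i : ℕ) < j) :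
    (visGraph (tv N X Y)).Adj i j ↔
      ∀ k : ℕ, (i : ℕ) < k → k < (j : ℕ) → Y k ≤ ln X Y i j (X k) := by
  have hXij : X i < X j := hX hij
  have htop : ∀ x, X 0 ≤ x → x ≤ X N → pl N X Y x ≤ ln X Y 0 N x := fun x h1 h2 =>
    pl_le_ln hX hN le_rfl (fun k _ hk => hT k hk) h1 h2
  constructor
  · rintro ⟨-, hseg⟩ k h1 h2
    by_contra hlt
    push Not at hlt
    have hkN : k ≤ N := by omega
    have hmem : ((X k, ln X Y i j (X k)) : ℝ × ℝ) ∈ segment ℝ (tv N X Y i) (tv N X Y j) := by
      refine (seg_iff hXij _).2 ⟨(hX h1).le, (hX h2).le, rfl⟩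
    have h3 : ln X Y i j (X k) < pl N X Y (X k) := by rw [pl_at hX hkN]; exact hlt
    refine not_mem_region hX hN (X k, ln X Y i j (X k)) h3 ?_ (hseg hmem)
    exact h3.trans_le (htop _ (hX.monotone (Nat.zero_le _)) (hX.monotone hkN))
  · intro h
    refine ⟨fun e => by rw [e] at hij; exact lt_irrefl _ hij, fun p hp => ?_⟩
    have hp' := (seg_iff (Y := Y) hXij p).1 hp
    obtain ⟨h1, h2, h3⟩ := hp'
    have hi0 : X 0 ≤ X i := hX.monotone (Nat.zero_le _)
    have hjN : X j ≤ X N := hX.monotone (by omega)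
    refine mem_region hX hN p (hi0.trans h1) (h2.trans hjN) ?_ ?_
    · rw [h3]
      refine pl_le_ln hX hij (by omega) (fun k a b => ?_) h1 h2
      rcases Nat.lt_or_ge (i : ℕ) k with c | c
      · rcases Nat.lt_or_ge k (j : ℕ) with d | d
        · exact h k c d
        · have : k = (j : ℕ) := le_antisymm b d
          rw [this, ln_right hXij]
      · have : k = (i : ℕ) := le_antisymm c a
        rw [this, ln_left]
    · rw [h3]
      set t := (p.1 - X i) / (X j - X i) with ht
      have t0 : 0 ≤ t := div_nonneg (by linarith) (by linarith)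
      have t1 : t ≤ 1 := by rw [ht, div_le_one (by linarith)]; linarith
      have hx : p.1 = (1 - t) * X i + t * X j := by
        have h5 : t * (X j - X i) = p.1 - X i := div_mul_cancel₀ _ (sub_pos.2 hXij).ne'
        linear_combination -h5
      rw [hx, ln_interp, ln_interp, ln_left, ln_right hXij]
      have e1 := hT i (by omega)
      have e2 := hT j (by omega)
      nlinarith

theorem isSimple (hX : StrictMono X) (hN : 2 ≤ N)
    (hT : ∀ k, 0 < k → k < N → Y k < ln X Y 0 N (X k)) : IsSimplePolygon (tv N X Y) := by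
  have hN0 : 0 < N := by omega
  have hT' : ∀ k, k ≤ N → Y k ≤ ln X Y 0 N (X k) := by
    intro k hk
    rcases Nat.eq_zero_or_pos k with h | h
    · rw [h, ln_left]
    · rcases Nat.lt_or_ge k N with h' | h'
      · exact (hT k h h').le
      · have : k = N := le_antisymm hk h'
        rw [this, ln_right (hX hN0)]
  -- the last edge against another edge
  have key : ∀ i j : Fin (N + 1), (i : ℕ) < N → ¬ (j : ℕ) < N →
      edge (tv N X Y) i ∩ edge (tv N X Y) j ⊆
        {tv N X Y i, tv N X Y (finRotate (N + 1) i)} ∩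
          {tv N X Y j, tv N X Y (finRotate (N + 1) j)} := by
    rintro i j hi hj p ⟨h1, h2⟩
    rw [mem_edge hX i hi] at h1
    rw [mem_edge_last hX hN0 j hj] at h2
    obtain ⟨a, b, c⟩ := h1
    obtain ⟨-, -, d⟩ := h2
    have hjN : (j : ℕ) = N := by omega
    rw [tv_rot i hi, tv_rot_last j hj]
    have hXi : X i < X (i + 1) := hX (Nat.lt_succ_self _)
    set t := (p.1 - X i) / (X (i + 1) - X i) with ht
    have t0 : 0 ≤ t := div_nonneg (by linarith) (by linarith)
    have t1 : t ≤ 1 := by rw [ht, div_le_one (by linarith)]; linarith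
    have hx : p.1 = (1 - t) * X i + t * X (i + 1) := by
      have h5 : t * (X (i + 1) - X i) = p.1 - X i := div_mul_cancel₀ _ (sub_pos.2 hXi).ne'
      linear_combination -h5
    rw [c, hx, ln_interp, ln_interp, ln_left, ln_right hXi] at d
    have e1 := hT' i (by omega)
    have e2 := hT' (i + 1) (by omega)
    have z1 : (1 - t) * (ln X Y 0 N (X i) - Y i) = 0 := by nlinarith
    have z2 : t * (ln X Y 0 N (X (i + 1)) - Y (i + 1)) = 0 := by nlinarith
    rcases mul_eq_zero.1 z1 with z | z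
    · -- t = 1
      have t1' : t = 1 := by linarith
      have z3 : ln X Y 0 N (X (i + 1)) - Y (i + 1) = 0 := by
        rcases mul_eq_zero.1 z2 with w | w
        · linarith
        · exact w
      have hiN : (i : ℕ) + 1 = N := by
        by_contra hne
        have := hT (i + 1) (by omega) (by omega)
        linarith
      have hp : p = (X (i + 1), Y (i + 1)) := by
        ext
        · simp only; rw [hx, t1']; ring
        · simp only; rw [c, hx, ln_interp, ln_left, ln_right hXi, t1']; ring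
      refine ⟨?_, ?_⟩
      · rw [hp]; right; rfl
      · rw [hp]; left
        unfold tv
        rw [hjN, hiN]
    · -- i = 0
      have hi0 : (i : ℕ) = 0 := by
        by_contra hne
        have := hT i (by omega) (by omega)
        linarith
      have t0' : t = 0 := by
        rcases mul_eq_zero.1 z2 with w | w
        · exact w
        · exfalso
          have := hT (i + 1) (by omega) (by omega)
          linarith
      have hp : p = (X i, Y i) := by
        ext
        · simp only; rw [hx, t0']; ring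
        · simp only; rw [c, hx, ln_interp, ln_left, ln_right hXi, t0']; ring
      refine ⟨?_, ?_⟩
      · rw [hp]; left; rfl
      · rw [hp]; right
        rw [hi0]; rfl
  have key2 : ∀ i j : Fin (N + 1), (i : ℕ) < N → (j : ℕ) < N → (i : ℕ) < j →
      edge (tv N X Y) i ∩ edge (tv N X Y) j ⊆
        {tv N X Y i, tv N X Y (finRotate (N + 1) i)} ∩
          {tv N X Y j, tv N X Y (finRotate (N + 1) j)} := by
    rintro i j hi hj hij p ⟨h1, h2⟩
    rw [mem_edge hX i hi] at h1
    rw [mem_edge hX j hj] at h2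
    obtain ⟨a, b, c⟩ := h1
    obtain ⟨a', b', c'⟩ := h2
    have hXi : X i < X (i + 1) := hX (Nat.lt_succ_self _)
    have h3 : X j ≤ X (i + 1) := a'.trans b
    have h4 : (j : ℕ) ≤ i + 1 := hX.le_iff_le.1 h3
    have h5 : (j : ℕ) = i + 1 := by omega
    have h6 : p.1 = X (i + 1) := le_antisymm b (by rw [← h5]; exact a')
    have hp : p = (X (i + 1), Y (i + 1)) := by
      ext
      · exact h6
      · simp only; rw [c, h6, ln_right hXi]
    rw [tv_rot i hi]
    refine ⟨?_, ?_⟩
    · rw [hp]; right; rfl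
    · rw [hp]; left
      unfold tv
      rw [h5]
  refine ⟨by omega, ?_, ?_⟩
  · intro i j h
    have h1 : X i = X j := congrArg Prod.fst h
    exact Fin.ext (hX.injective h1)
  · intro i j hij
    by_cases hi : (i : ℕ) < N
    · by_cases hj : (j : ℕ) < N
      · have hne : (i : ℕ) ≠ j := fun h => hij (Fin.ext h)
        rcases lt_or_gt_of_ne hne with h | h
        · exact key2 i j hi hj h
        · rw [Set.inter_comm, Set.inter_comm {tv N X Y i, _}]
          exact key2 j i hj hi h
      · exact key i j hi hj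
    · by_cases hj : (j : ℕ) < N
      · rw [Set.inter_comm, Set.inter_comm {tv N X Y i, _}]
        exact key j i hj hi
      · exfalso
        exact hij (Fin.ext (by omega))

lemma collinear_cross {p q r : ℝ × ℝ} (h : Collinear ℝ {p, q, r}) :
    (q.1 - p.1) * (r.2 - p.2) = (q.2 - p.2) * (r.1 - p.1) := by
  rw [collinear_iff_of_mem (p₀ := p) (by simp)] at h
  obtain ⟨v, hv⟩ := h
  obtain ⟨s, hs⟩ := hv q (by simp)
  obtain ⟨t, ht⟩ := hv r (by simp)
  rw [hs, ht]
  simp only [vadd_eq_add, Prod.fst_add, Prod.snd_add, Prod.smul_fst, Prod.smul_snd, smul_eq_mul]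
  ring

theorem noStraight (hX : StrictMono X) (hN : 2 ≤ N)
    (hT : ∀ k, 0 < k → k < N → Y k < ln X Y 0 N (X k))
    (hS : ∀ k, k + 2 ≤ N → Y (k + 1) ≠ ln X Y k (k + 2) (X (k + 1))) :
    NoStraightAngle (tv N X Y) := by
  intro i hc
  have hc' := collinear_cross hc
  by_cases hi : (i : ℕ) < N
  · have e1 : tv N X Y (finRotate (N + 1) i) = (X (i + 1), Y (i + 1)) := tv_rot i hi
    by_cases hi2 : (i : ℕ) + 1 < N
    · have e2 : tv N X Y (finRotate (N + 1) (finRotate (N + 1) i)) = (X (i + 2), Y (i + 2)) := by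
        rw [tv_rot _ (by rw [rot_val i hi]; exact hi2), rot_val i hi]
      rw [e1, e2] at hc'
      refine hS i (by omega) ?_
      have hpos : X i < X (i + 2) := hX (by omega)
      simp only [tv] at hc'
      unfold ln
      have hne : X (i + 2) - X i ≠ 0 := (sub_pos.2 hpos).ne'
      field_simp
      linear_combination -hc'
    · have hiN : (i : ℕ) + 1 = N := by omega
      have e2 : tv N X Y (finRotate (N + 1) (finRotate (N + 1) i)) = (X 0, Y 0) :=
        tv_rot_last _ (by rw [rot_val i hi]; omega)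
      rw [e1, e2] at hc'
      have h1 := hT i (by omega) hi
      have hpos : X 0 < X N := hX (by omega)
      rw [hiN] at hc'
      simp only [tv] at hc'
      unfold ln at h1
      have hne : X N - X 0 ≠ 0 := (sub_pos.2 hpos).ne'
      refine h1.ne ?_
      field_simp
      linear_combination -hc'
  · have hi' : i = Fin.last N := Fin.ext (by simp; omega)
    subst hi'
    have e0 : finRotate (N + 1) (Fin.last N) = 0 := finRotate_last
    have e2 : tv N X Y (finRotate (N + 1) (0 : Fin (N + 1))) = (X 1, Y 1) :=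
      tv_rot 0 (by simp; omega)
    rw [e0, e2] at hc'
    have h1 := hT 1 (by omega) (by omega)
    have hpos : X 0 < X N := hX (by omega)
    simp only [tv, Fin.val_last, Fin.val_zero] at hc'
    unfold ln at h1
    have hne : X N - X 0 ≠ 0 := (sub_pos.2 hpos).ne'
    refine h1.ne ?_
    field_simp
    linear_combination -hc'

end Pool.Agent.V1120.VG
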